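import Pool.Agent.Helper19.PG.Vert

/-!
# PG-D, second half: the vertices of a polytope

If a norm like function `u` on `ℝ ^ d`, `d ≥ 2`, is the maximum of finitely many linear
functionals, then there is a corner (`Crn`): an extreme point `v` of the unit ball, the height
`h` = the average of the functionals which are `1` at `v`; near `v` the norm is one of the
functionals of a minimal family which are `1` at `v`, and the face of each of them contains an
extreme point different from `v` (Krein and Milman).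
-/

set_option autoImplicit false

namespace Pool.Agent.Helper19.PG

open Pool.Agent.Helper79.GR Pool.Agent.Helper79.GQ Pool.Agent.Helper51.NP Filter Topology

variable {d : ℕ} {a b : ℝ} {u : F d → ℝ}

theorem Nr0.zero (hu : Nr0 a b u) : u 0 = 0 := by
  have h := hu.smul 0 le_rfl 0
  rwa [zero_smul, zero_mul] at h

theorem Nr0.nonneg (hu : Nr0 a b u) (x : F d) : 0 ≤ u x :=
  (mul_nonneg hu.apos.le (nr_nonneg x)).trans (hu.lo x)

theorem Nr0.continuous (hu : Nr0 a b u) : Continuous u := by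
  rw [continuous_iff_continuousAt]
  intro x
  rw [ContinuousAt, tendsto_iff_dist_tendsto_zero]
  have h1 : Tendsto (fun y : F d => b * nr (y - x)) (𝓝 x) (𝓝 0) := by
    have h2 : Continuous fun y : F d => b * nr (y - x) :=
      continuous_const.mul (nr_continuous.comp (continuous_id.sub continuous_const))
    have h3 := h2.tendsto x
    rw [sub_self, nr_zero, mul_zero] at h3
    exact h3
  refine squeeze_zero (fun y => dist_nonneg) (fun y => ?_) h1
  rw [Real.dist_eq, abs_le]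
  have h2 := hu.add x (y - x)
  have h3 := hu.add y (x - y)
  rw [add_sub_cancel] at h2 h3
  have h4 := hu.hi (y - x)
  have h5 := hu.hi (x - y)
  have h6 : nr (x - y) = nr (y - x) := by rw [← nr_neg, neg_sub]
  rw [h6] at h5
  constructor <;> linarith

/-- the unit ball -/
def ball (u : F d → ℝ) : Set (F d) := {x | u x ≤ 1}

theorem isCompact_sub (hu : Nr0 a b u) {K : Set (F d)} (hK : IsClosed K)
    (h : ∀ x ∈ K, u x ≤ 1) : IsCompact K := by
  refine (isCompact_closedBall (0 : F d) (1 / a)).of_isClosed_subset hK ?_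
  intro x hx
  have ha := hu.apos
  rw [mem_closedBall_zero_iff, pi_norm_le_iff_of_nonneg (by positivity)]
  intro i
  rw [Real.norm_eq_abs, le_div_iff₀ ha, mul_comm]
  have h1 := (hu.lo x).trans (h x hx)
  have h2 := Finset.single_le_sum (f := fun i => |x i|) (fun i _ => abs_nonneg (x i))
    (Finset.mem_univ i)
  have h3 : |x i| ≤ nr x := h2
  exact (mul_le_mul_of_nonneg_left h3 ha.le).trans h1

theorem convex_ball (hu : Nr0 a b u) : Convex ℝ (ball u) := by
  intro x hx y hy p q hp hq hpq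
  have h1 : u x ≤ 1 := hx
  have h2 : u y ≤ 1 := hy
  show u (p • x + q • y) ≤ 1
  refine (hu.add _ _).trans ?_
  rw [hu.smul p hp, hu.smul q hq]
  nlinarith [mul_le_mul_of_nonneg_left h1 hp, mul_le_mul_of_nonneg_left h2 hq]

/-- an extreme point is not the middle of a segment -/
theorem ext_sym {K : Set (F d)} {v y : F d} (hv : v ∈ K.extremePoints ℝ) (h1 : v + y ∈ K)
    (h2 : v - y ∈ K) : y = 0 := by
  rw [mem_extremePoints] at hv
  have h3 : v ∈ openSegment ℝ (v + y) (v - y) := by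
    refine ⟨1 / 2, 1 / 2, by norm_num, by norm_num, by norm_num, ?_⟩
    funext i
    simp only [Pi.add_apply, Pi.smul_apply, Pi.sub_apply, smul_eq_mul]
    ring
  have h4 := (hv.2 _ h1 _ h2 h3).1
  simpa using h4

theorem nr_single (i : Fin d) (t : ℝ) : nr (Pi.single i t : F d) = |t| := by
  unfold nr
  rw [Finset.sum_eq_single i]
  · rw [Pi.single_eq_same]
  · intro j _ hj
    rw [Pi.single_eq_of_ne hj, abs_zero]
  · intro h
    exact absurd (Finset.mem_univ _) h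

theorem ext_one (hd : 0 < d) (hu : Nr0 a b u) {v : F d} (hv : v ∈ (ball u).extremePoints ℝ) :
    u v = 1 := by
  have h1 : u v ≤ 1 := hv.1
  by_contra hne
  have h2 : 0 < 1 - u v := by
    rcases h1.lt_or_eq with h | h
    · linarith
    · exact absurd h hne
  obtain ⟨t, ht, htb⟩ : ∃ t : ℝ, 0 < t ∧ b * t ≤ 1 - u v := by
    rcases le_or_gt b 0 with hb | hb
    · exact ⟨1, one_pos, by linarith⟩
    · exact ⟨(1 - u v) / b, div_pos h2 hb, (mul_div_cancel₀ _ hb.ne').le⟩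
  have h3 : ∀ y : F d, nr y = t → v + y ∈ ball u := fun y hy => by
    have h4 := hu.add v y
    have h5 := hu.hi y
    rw [hy] at h5
    show u (v + y) ≤ 1
    linarith
  have h4 : nr (Pi.single ⟨0, hd⟩ t : F d) = t := by
    rw [nr_single, abs_of_pos ht]
  have h5 := ext_sym hv (h3 _ h4) (by
    rw [sub_eq_add_neg]
    exact h3 _ (by rw [nr_neg, h4]))
  rw [h5, nr_zero] at h4
  exact ht.ne h4

/-- small multiples of `y` -/
theorem exists_small (S : Finset (F d →L[ℝ] ℝ)) (w y : F d) (e : ℝ) :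
    ∃ t : ℝ, 0 < t ∧ ∀ ρ ∈ S, ρ w < 1 → t * |ρ y| ≤ 1 - ρ w ∧ e * t < 1 - ρ w := by
  have h1 : ∀ᶠ t : ℝ in 𝓝[>] 0, ∀ ρ ∈ S, ρ w < 1 → t * |ρ y| ≤ 1 - ρ w ∧ e * t < 1 - ρ w := by
    refine (eventually_all_finset S).2 fun ρ _ => ?_
    by_cases hρ : ρ w < 1
    · have h2 : Tendsto (fun t : ℝ => t * |ρ y|) (𝓝[>] 0) (𝓝 0) := by
        have h3 : Continuous fun t : ℝ => t * |ρ y| := by fun_prop
        have h4 := (h3.tendsto 0).mono_left (nhdsWithin_le_nhds (s := Set.Ioi 0))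
        rwa [zero_mul] at h4
      have h2' : Tendsto (fun t : ℝ => e * t) (𝓝[>] 0) (𝓝 0) := by
        have h3 : Continuous fun t : ℝ => e * t := by fun_prop
        have h4 := (h3.tendsto 0).mono_left (nhdsWithin_le_nhds (s := Set.Ioi 0))
        rwa [mul_zero] at h4
      have h5 : (0 : ℝ) < 1 - ρ w := by linarith
      filter_upwards [h2.eventually (gt_mem_nhds h5), h2'.eventually (gt_mem_nhds h5)] with t k1 k2 _
      exact ⟨k1.le, k2⟩
    · exact Eventually.of_forall fun t h => absurd h hρ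
  obtain ⟨t, h2, h3⟩ := (h1.and self_mem_nhdsWithin).exists
  exact ⟨t, h3, h2⟩

variable {S : Finset (F d →L[ℝ] ℝ)}

open Classical in
/-- extreme points of the ball of a polytope norm are vertex directions -/
theorem exists_vtx (hd : 0 < d) (hu : Nr0 a b u) (hle : ∀ ρ ∈ S, ∀ x, ρ x ≤ u x)
    (hex : ∀ x, ∃ ρ ∈ S, ρ x = u x) {v : F d} (hv : v ∈ (ball u).extremePoints ℝ) :
    ∃ (h : F d →L[ℝ] ℝ) (s : ℝ), Vtx u v h s := by
  have hv1 := ext_one hd hu hv
  obtain ⟨A, hA⟩ : ∃ A, A = S.filter fun ρ => ρ v = 1 := ⟨_, rfl⟩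
  have hAm : ∀ ρ, ρ ∈ A ↔ ρ ∈ S ∧ ρ v = 1 := fun ρ => by rw [hA, Finset.mem_filter]
  have hAne : A.Nonempty := by
    obtain ⟨ρ, h1, h2⟩ := hex v
    exact ⟨ρ, (hAm ρ).2 ⟨h1, h2.trans hv1⟩⟩
  have hc : (0 : ℝ) < A.card := by exact_mod_cast hAne.card_pos
  obtain ⟨h, hh⟩ : ∃ h : F d →L[ℝ] ℝ, h = (A.card : ℝ)⁻¹ • ∑ ρ ∈ A, ρ := ⟨_, rfl⟩
  have hhx : ∀ x, h x = (A.card : ℝ)⁻¹ * ∑ ρ ∈ A, ρ x := fun x => by
    rw [hh]
    simp
  have hhv : h v = 1 := by
    rw [hhx, Finset.sum_congr rfl fun ρ hρ => ((hAm ρ).1 hρ).2]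
    rw [Finset.sum_const, nsmul_eq_mul, mul_one, inv_mul_cancel₀ hc.ne']
  -- transversal directions
  have hpos : ∀ y, h y = 0 → y ≠ 0 → ∃ ρ ∈ A, 0 < ρ y := by
    intro y hy hy0
    by_contra hcon
    push Not at hcon
    have h1 : ∑ ρ ∈ A, ρ y = 0 := by
      have h2 := hhx y
      rw [hy] at h2
      rcases mul_eq_zero.1 h2.symm with h3 | h3
      · exact absurd h3 (inv_ne_zero hc.ne')
      · exact h3
    have h2 := (Finset.sum_eq_zero_iff_of_nonpos hcon).1 h1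
    obtain ⟨t, ht, ht2⟩ := exists_small S v y 0
    have h3 : ∀ σ : ℝ, |σ| = t → v + σ • y ∈ ball u := by
      intro σ hσ
      obtain ⟨ρ, k1, k2⟩ := hex (v + σ • y)
      show u (v + σ • y) ≤ 1
      rw [← k2, map_add, map_smul, smul_eq_mul]
      by_cases hρ : ρ v = 1
      · rw [h2 ρ ((hAm ρ).2 ⟨k1, hρ⟩), mul_zero, add_zero, hρ]
      · have h4 : ρ v < 1 := lt_of_le_of_ne ((hle ρ k1 v).trans hv1.le) hρ
        have h5 := (ht2 ρ k1 h4).1
        have h6 : σ * ρ y ≤ t * |ρ y| := by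
          rw [← hσ, ← abs_mul]
          exact le_abs_self _
        linarith
    have h4 := ext_sym hv (h3 t (abs_of_pos ht)) (by
      rw [sub_eq_add_neg, ← neg_smul]
      exact h3 (-t) (by rw [abs_neg, abs_of_pos ht]))
    rcases smul_eq_zero.1 h4 with h5 | h5
    · exact ht.ne' h5
    · exact hy0 h5
  -- the strength of the corner
  obtain ⟨f, hf⟩ : ∃ f : F d → ℝ, f = fun y => ∑ ρ ∈ A, max (ρ y) 0 := ⟨_, rfl⟩
  have hfc : Continuous f := by
    rw [hf]
    exact continuous_finsetSum _ fun ρ _ => ρ.continuous.max continuous_const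
  obtain ⟨K, hK⟩ : ∃ K : Set (F d), K = {y | h y = 0 ∧ nr y = 1} := ⟨_, rfl⟩
  have hKc : IsCompact K := by
    have h1 : IsClosed K := by
      rw [hK]
      exact (isClosed_eq h.continuous continuous_const).inter
        (isClosed_eq nr_continuous continuous_const)
    refine (isCompact_closedBall (0 : F d) 1).of_isClosed_subset h1 ?_
    intro x hx
    rw [hK] at hx
    rw [mem_closedBall_zero_iff, pi_norm_le_iff_of_nonneg zero_le_one]
    intro i
    rw [Real.norm_eq_abs, ← hx.2]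
    exact Finset.single_le_sum (f := fun i => |x i|) (fun i _ => abs_nonneg (x i))
      (Finset.mem_univ i)
  have hfp : ∀ y ∈ K, 0 < f y := by
    intro y hy
    rw [hK] at hy
    obtain ⟨ρ, h1, h2⟩ := hpos y hy.1 fun h0 => by
      have := hy.2
      rw [h0, nr_zero] at this
      exact zero_ne_one this
    rw [hf]
    exact Finset.sum_pos' (fun ρ _ => le_max_right _ _) ⟨ρ, h1, lt_max_of_lt_left h2⟩
  obtain ⟨c, hc0, hcf⟩ : ∃ c : ℝ, 0 < c ∧ ∀ y ∈ K, c ≤ f y := by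
    rcases K.eq_empty_or_nonempty with h0 | h0
    · exact ⟨1, one_pos, fun y hy => by rw [h0] at hy; exact hy.elim⟩
    · obtain ⟨y0, h1, h2⟩ := hKc.exists_isMinOn h0 hfc.continuousOn
      exact ⟨f y0, hfp y0 h1, fun y hy => h2 hy⟩
  have hs : ∀ y, h y = 0 → ∃ ρ ∈ A, c / A.card * nr y ≤ ρ y := by
    intro y hy
    rcases eq_or_ne y 0 with h0 | h0
    · obtain ⟨ρ, hρ⟩ := hAne
      exact ⟨ρ, hρ, by rw [h0, nr_zero, mul_zero, map_zero]⟩
    have hn : 0 < nr y := lt_of_le_of_ne (nr_nonneg y) fun h1 => h0 (nr_eq_zero h1.symm)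
    have h1 : (nr y)⁻¹ • y ∈ K := by
      rw [hK]
      refine ⟨by rw [map_smul, hy, smul_zero], ?_⟩
      rw [nr_smul, abs_of_pos (inv_pos.2 hn), inv_mul_cancel₀ hn.ne']
    have h2 := hcf _ h1
    by_contra hcon
    push Not at hcon
    have h3 : f ((nr y)⁻¹ • y) < c := by
      rw [hf]
      show ∑ ρ ∈ A, max (ρ ((nr y)⁻¹ • y)) 0 < c
      have h4 : ∀ ρ ∈ A, max (ρ ((nr y)⁻¹ • y)) 0 < c / A.card := by
        intro ρ hρ
        refine max_lt ?_ (div_pos hc0 hc)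
        rw [map_smul, smul_eq_mul, inv_mul_lt_iff₀ hn, mul_comm]
        exact hcon ρ hρ
      refine (Finset.sum_lt_sum_of_nonempty hAne h4).trans_le ?_
      rw [Finset.sum_const, nsmul_eq_mul, mul_div_cancel₀ _ hc.ne']
    exact absurd h2 (not_le.2 h3)
  refine ⟨h, c / A.card, hhv, hv1, div_pos hc0 hc, fun x => ?_⟩
  obtain ⟨ρ, h1, h2⟩ := hs (yp v h x) (h_yp hhv x)
  have h3 := hle ρ ((hAm ρ).1 h1).1 x
  have h4 : ρ x = h x + ρ (yp v h x) := by
    rw [yp, map_sub, map_smul, ((hAm ρ).1 h1).2, smul_eq_mul]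
    ring
  rw [tr_eq]
  linarith

/-- a nonzero vector in the kernel -/
theorem exists_ker (hd : 2 ≤ d) (ρ : F d →L[ℝ] ℝ) : ∃ y : F d, y ≠ 0 ∧ ρ y = 0 := by
  obtain ⟨i, hi⟩ : ∃ i : Fin d, i = ⟨0, by omega⟩ := ⟨_, rfl⟩
  obtain ⟨j, hj⟩ : ∃ j : Fin d, j = ⟨1, by omega⟩ := ⟨_, rfl⟩
  have hij : i ≠ j := by
    rw [hi, hj]
    simp
  by_cases h0 : ρ (Pi.single i 1) = 0
  · refine ⟨Pi.single i 1, ?_, h0⟩
    intro h
    have := congrFun h i
    simp at this
  · refine ⟨ρ (Pi.single j 1) • (Pi.single i 1 : F d) - ρ (Pi.single i 1) • (Pi.single j 1 : F d),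
      ?_, ?_⟩
    · intro h
      have h1 := congrFun h j
      rw [Pi.sub_apply, Pi.smul_apply, Pi.smul_apply, Pi.single_eq_same,
        Pi.single_eq_of_ne hij.symm] at h1
      simp at h1
      exact h0 h1
    · rw [map_sub, map_smul, map_smul, smul_eq_mul, smul_eq_mul]
      ring

/-- the face of a functional of a minimal family contains two extreme points -/
theorem exists_other (hd : 2 ≤ d) (hu : Nr0 a b u) (hle : ∀ ρ ∈ S, ∀ x, ρ x ≤ u x)
    (hex : ∀ x, ∃ ρ ∈ S, ρ x = u x) {ρ₀ : F d →L[ℝ] ℝ} (h0 : ρ₀ ∈ S)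
    {x₀ : F d} (hx₀ : ∀ ρ ∈ S, ρ ≠ ρ₀ → ρ x₀ < u x₀) (v : F d) :
    ∃ w, w ∈ (ball u).extremePoints ℝ ∧ ρ₀ w = 1 ∧ w ≠ v := by
  have hx0' : ρ₀ x₀ = u x₀ := by
    obtain ⟨ρ, k1, k2⟩ := hex x₀
    by_cases k3 : ρ = ρ₀
    · rw [← k3, k2]
    · exact absurd k2 (hx₀ ρ k1 k3).ne
  have hup : 0 < u x₀ := by
    rcases (hu.nonneg x₀).lt_or_eq with h | h
    · exact h
    exfalso
    have k1 : x₀ = 0 := by
      have k2 := hu.lo x₀
      rw [← h] at k2
      have k3 := nr_nonneg x₀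
      have k4 := hu.apos
      exact nr_eq_zero (le_antisymm (by nlinarith) k3)
    have k2 : ∀ x, ρ₀ x = u x := by
      intro x
      obtain ⟨ρ, k3, k4⟩ := hex x
      by_cases k5 : ρ = ρ₀
      · rw [← k5, k4]
      · have k6 := hx₀ ρ k3 k5
        rw [k1, map_zero, hu.zero] at k6
        exact absurd k6 (lt_irrefl _)
    obtain ⟨i, hi⟩ : ∃ i : Fin d, i = ⟨0, by omega⟩ := ⟨_, rfl⟩
    have k3 := hu.lo (Pi.single i 1)
    have k4 := hu.lo (-(Pi.single i 1))
    rw [nr_neg, nr_single, abs_one, ← k2, map_neg] at k4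
    rw [nr_single, abs_one, ← k2] at k3
    have k5 := hu.apos
    linarith
  obtain ⟨w, hw⟩ : ∃ w : F d, w = (u x₀)⁻¹ • x₀ := ⟨_, rfl⟩
  have hw0 : ρ₀ w = 1 := by
    rw [hw, map_smul, hx0', smul_eq_mul, inv_mul_cancel₀ hup.ne']
  have hw1 : ∀ ρ ∈ S, ρ ≠ ρ₀ → ρ w < 1 := fun ρ hρ hne => by
    rw [hw, map_smul, smul_eq_mul, inv_mul_lt_iff₀ hup, mul_one]
    exact hx₀ ρ hρ hne
  obtain ⟨y, hy0, hy⟩ := exists_ker hd ρ₀
  obtain ⟨t, ht, ht2⟩ := exists_small S w y 0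
  obtain ⟨K, hK⟩ : ∃ K : Set (F d), K = {x | u x ≤ 1 ∧ ρ₀ x = 1} := ⟨_, rfl⟩
  have hwK : ∀ σ : ℝ, 0 ≤ σ → σ ≤ t → w + σ • y ∈ K := by
    intro σ hσ hσt
    rw [hK]
    refine ⟨?_, by rw [map_add, map_smul, hy, smul_zero, add_zero, hw0]⟩
    obtain ⟨ρ, k1, k2⟩ := hex (w + σ • y)
    rw [← k2, map_add, map_smul, smul_eq_mul]
    by_cases k3 : ρ = ρ₀
    · rw [k3, hy, mul_zero, add_zero, hw0]
    · have k4 := (ht2 ρ k1 (hw1 ρ k1 k3)).1
      have k5 : σ * ρ y ≤ t * |ρ y| :=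
        (mul_le_mul_of_nonneg_left (le_abs_self _) hσ).trans
          (mul_le_mul_of_nonneg_right hσt (abs_nonneg _))
      linarith
  have hKcl : IsClosed K := by
    rw [hK]
    exact (isClosed_le hu.continuous continuous_const).inter
      (isClosed_eq ρ₀.continuous continuous_const)
  have hKc : IsCompact K := isCompact_sub hu hKcl fun x hx => by
    rw [hK] at hx
    exact hx.1
  have hKcv : Convex ℝ K := by
    rw [hK]
    refine (convex_ball hu).inter ?_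
    intro x hx z hz p q hp hq hpq
    have k1 : ρ₀ x = 1 := hx
    have k2 : ρ₀ z = 1 := hz
    show ρ₀ (p • x + q • z) = 1
    rw [map_add, map_smul, map_smul, k1, k2, smul_eq_mul, smul_eq_mul, mul_one, mul_one, hpq]
  have hKM := closure_convexHull_extremePoints hKc hKcv
  obtain ⟨z, hz, hzv⟩ : ∃ z ∈ K.extremePoints ℝ, z ≠ v := by
    by_contra hcon
    push Not at hcon
    have k1 : K.extremePoints ℝ ⊆ {v} := fun z hz => hcon z hz
    have k2 : K ⊆ {v} := by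
      rw [← hKM]
      refine closure_minimal ?_ isClosed_singleton
      exact convexHull_min k1 (convex_singleton v)
    have k3 : w + (0 : ℝ) • y = v := k2 (hwK 0 le_rfl ht.le)
    have k4 : w + t • y = v := k2 (hwK t ht.le le_rfl)
    have k5 : t • y = (0 : ℝ) • y := add_left_cancel (k4.trans k3.symm)
    rw [zero_smul] at k5
    rcases smul_eq_zero.1 k5 with k6 | k6
    · exact ht.ne' k6
    · exact hy0 k6
  refine ⟨z, ?_, ?_, hzv⟩
  · rw [mem_extremePoints] at hz ⊢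
    obtain ⟨hzK, hz2⟩ := hz
    have hzK' : u z ≤ 1 ∧ ρ₀ z = 1 := by rwa [hK] at hzK
    refine ⟨hzK'.1, fun x₁ h₁ x₂ h₂ hx => ?_⟩
    have k1 : ρ₀ x₁ ≤ 1 := (hle ρ₀ h0 x₁).trans h₁
    have k2 : ρ₀ x₂ ≤ 1 := (hle ρ₀ h0 x₂).trans h₂
    obtain ⟨p, q, hp, hq, hpq, hpz⟩ := hx
    have k3 : p * ρ₀ x₁ + q * ρ₀ x₂ = 1 := by
      have k4 := congrArg ρ₀ hpz
      rw [map_add, map_smul, map_smul, smul_eq_mul, smul_eq_mul, hzK'.2] at k4
      exact k4
    have k4 : ρ₀ x₁ = 1 := by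
      by_contra hne
      have k5 : ρ₀ x₁ < 1 := lt_of_le_of_ne k1 hne
      nlinarith
    have k5 : ρ₀ x₂ = 1 := by
      by_contra hne
      have k6 : ρ₀ x₂ < 1 := lt_of_le_of_ne k2 hne
      nlinarith
    have m1 : x₁ ∈ K := by
      rw [hK]
      exact ⟨h₁, k4⟩
    have m2 : x₂ ∈ K := by
      rw [hK]
      exact ⟨h₂, k5⟩
    exact hz2 x₁ m1 x₂ m2 ⟨p, q, hp, hq, hpq, hpz⟩
  · have h1 := hz.1
    rw [hK] at h1
    exact h1.2

open Classical in
/-- a minimal family -/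
theorem exists_min_family (hex : ∀ x, ∃ ρ ∈ S, ρ x = u x) :
    ∃ S' : Finset (F d →L[ℝ] ℝ), S' ⊆ S ∧ (∀ x, ∃ ρ ∈ S', ρ x = u x) ∧
      ∀ ρ₀ ∈ S', ∃ x₀, ∀ ρ ∈ S', ρ ≠ ρ₀ → ρ x₀ ≠ u x₀ := by
  obtain ⟨S', h1, h2⟩ := Finset.exists_min_image
    (S.powerset.filter fun S' => ∀ x, ∃ ρ ∈ S', ρ x = u x) Finset.card
    ⟨S, by rw [Finset.mem_filter]; exact ⟨Finset.mem_powerset_self S, hex⟩⟩
  rw [Finset.mem_filter, Finset.mem_powerset] at h1
  refine ⟨S', h1.1, h1.2, fun ρ₀ h0 => ?_⟩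
  by_contra hcon
  push Not at hcon
  have h3 : S'.erase ρ₀ ∈ S.powerset.filter fun S' => ∀ x, ∃ ρ ∈ S', ρ x = u x := by
    rw [Finset.mem_filter, Finset.mem_powerset]
    refine ⟨(Finset.erase_subset _ _).trans h1.1, fun x => ?_⟩
    obtain ⟨ρ, k1, k2, k3⟩ := hcon x
    exact ⟨ρ, Finset.mem_erase.2 ⟨k2, k1⟩, k3⟩
  have h4 := h2 _ h3
  have h5 := Finset.card_erase_lt_of_mem h0
  exact absurd h4 (not_le.2 h5)

open Classical in
/-- a polytope norm has a corner -/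
theorem exists_crn (hd : 2 ≤ d) (hu : Nr0 a b u) (hle : ∀ ρ ∈ S, ∀ x, ρ x ≤ u x)
    (hex : ∀ x, ∃ ρ ∈ S, ρ x = u x) :
    ∃ (v : F d) (h : F d →L[ℝ] ℝ) (s ε : ℝ) (K : ℕ) (ρ : Fin K → F d →L[ℝ] ℝ)
      (v' : Fin K → F d) (h' : Fin K → F d →L[ℝ] ℝ) (s' : Fin K → ℝ),
      Crn u v h s ε K ρ v' h' s' := by
  obtain ⟨S', hS1, hS2, hS3⟩ := exists_min_family hex
  have hle' : ∀ ρ ∈ S', ∀ x, ρ x ≤ u x := fun ρ hρ => hle ρ (hS1 hρ)
  have hBc : IsCompact (ball u) := isCompact_sub hu (isClosed_le hu.continuous continuous_const)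
    fun x hx => hx
  obtain ⟨v, hv⟩ := hBc.extremePoints_nonempty ⟨0, by
    show u 0 ≤ 1
    rw [hu.zero]
    exact zero_le_one⟩
  have hd0 : 0 < d := by omega
  have hv1 := ext_one hd0 hu hv
  obtain ⟨h, s, hV⟩ := exists_vtx hd0 hu hle' hS2 hv
  -- the active functionals
  obtain ⟨A, hA⟩ : ∃ A, A = S'.filter fun ρ => ρ v = 1 := ⟨_, rfl⟩
  have hAm : ∀ ρ, ρ ∈ A ↔ ρ ∈ S' ∧ ρ v = 1 := fun ρ => by rw [hA, Finset.mem_filter]
  have hoth : ∀ i : Fin A.card, ∃ (w : F d) (h' : F d →L[ℝ] ℝ) (s' : ℝ),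
      Vtx u w h' s' ∧ (A.equivFin.symm i).1 w = 1 ∧ 0 < tr v h w := by
    intro i
    obtain ⟨ρ, hρ⟩ : ∃ ρ, ρ = A.equivFin.symm i := ⟨_, rfl⟩
    rw [← hρ]
    have h1 := (hAm ρ.1).1 ρ.2
    obtain ⟨x₀, hx₀⟩ := hS3 ρ.1 h1.1
    obtain ⟨w, k1, k2, k3⟩ := exists_other hd hu hle' hS2 h1.1
      (fun ρ' k4 k5 => lt_of_le_of_ne (hle' ρ' k4 x₀) (hx₀ ρ' k4 k5)) v
    obtain ⟨h', s', k4⟩ := exists_vtx hd0 hu hle' hS2 k1
    refine ⟨w, h', s', k4, k2, lt_of_le_of_ne (tr_nonneg v h w) fun k5 => k3 ?_⟩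
    have k6 := nr_eq_zero k5.symm
    have k7 : w = h w • v := sub_eq_zero.1 k6
    have k8 := congrArg ρ.1 k7
    rw [map_smul, k2, h1.2, smul_eq_mul, mul_one] at k8
    rw [k7, ← k8, one_smul]
  choose v' h' s' k1 k2 k3 using hoth
  obtain ⟨ε, hε, hε2⟩ := exists_small S' v 0 b
  refine ⟨v, h, s, ε, A.card, fun i => (A.equivFin.symm i).1, v', h', s', hV, hε, ?_, ?_, k1, k2,
    k3⟩
  · intro x hx
    have hsub : ∀ ρ ∈ A, ρ x = u x → ∃ i, (A.equivFin.symm i).1 x = u x := by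
      intro ρ hρ hρx
      refine ⟨A.equivFin ⟨ρ, hρ⟩, ?_⟩
      rw [Equiv.symm_apply_apply]
      exact hρx
    have hx0 : 0 ≤ h x := by
      have h1 := tr_nonneg v h x
      by_contra hneg
      push Not at hneg
      nlinarith
    rcases hx0.lt_or_eq with hxp | hx00
    · obtain ⟨ρ, h1, h2⟩ := hS2 x
      by_cases h3 : ρ v = 1
      · exact hsub ρ ((hAm ρ).2 ⟨h1, h3⟩) h2
      · exfalso
        have h4 : ρ v < 1 := lt_of_le_of_ne ((hle' ρ h1 v).trans hv1.le) h3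
        have h5 := (hε2 ρ h1 h4).2
        have h6 : ρ x = h x * ρ v + ρ (x - h x • v) := by
          rw [map_sub, map_smul, smul_eq_mul]
          ring
        have h7 := (hle' ρ h1 (x - h x • v)).trans (hu.hi _)
        have h8 : 0 ≤ b * nr (x - h x • v) := (hu.nonneg _).trans (hu.hi _)
        have h9 : b * nr (x - h x • v) ≤ b * (ε * h x) := by
          rcases le_or_gt 0 b with hb | hb
          · exact mul_le_mul_of_nonneg_left hx hb
          · have h10 : nr (x - h x • v) = 0 := by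
              have h11 := nr_nonneg (x - h x • v)
              nlinarith
            have h12 := hu.hi v
            have h13 := hu.lo v
            have h14 := nr_nonneg v
            rw [hv1] at h12
            nlinarith
        have h10 := hV.gap x
        have h11 : 0 ≤ s * tr v h x := mul_nonneg hV.spos.le (tr_nonneg v h x)
        have h12 : b * (ε * h x) < (1 - ρ v) * h x := by
          rw [← mul_assoc]
          exact mul_lt_mul_of_pos_right h5 hxp
        nlinarith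
    · have hx1 : x = 0 := by
        rw [← hx00, mul_zero] at hx
        have h1 := nr_eq_zero (le_antisymm hx (tr_nonneg v h x))
        rw [← hx00, zero_smul, sub_zero] at h1
        exact h1
      obtain ⟨ρ, h1, h2⟩ := hS2 v
      exact hsub ρ ((hAm ρ).2 ⟨h1, h2.trans hv1⟩) (by rw [hx1, map_zero, hu.zero])
  · intro i x
    exact hle' _ ((hAm _).1 (A.equivFin.symm i).2).1 x

end Pool.Agent.Helper19.PG
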