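import Pool.Agent.Helper51.NP.Defs

/-!
# PG-D, first half: tilts at a vertex, the function `D` and inequality (E2)

`u` is a norm like function with a vertex `v`: `h v = 1 = u v`, `u x ≥ h x + s |x - h x v|`
(`Vtx`).  For a norm like function `n ≤ u` and a tilt `η` let `DG n η` be the supremum of
`g_η - n` over `h = 1`, `g_η x = h x + η · (x - h x v)` (`gt`).  Then `0 ≤ DG ≤ δ |v|` when
`u - δ |.| ≤ n ≤ u` and `|η|_∞ + δ ≤ s`, `DG` is convex in `η` and antitone in `n`, and (E2)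
`g_η x - n x ≤ (h x)_+ sup_(|η' - η|_∞ ≤ τ) DG n η' - τ |x - h x v|_1`.
-/

set_option autoImplicit false

namespace Pool.Agent.Helper19.PG

open Pool.Agent.Helper79.GR Pool.Agent.Helper79.GQ Pool.Agent.Helper51.NP

variable {d : ℕ}

theorem nr_nonneg (x : F d) : 0 ≤ nr x := Finset.sum_nonneg fun _ _ => abs_nonneg _

theorem nr_add (x y : F d) : nr (x + y) ≤ nr x + nr y := by
  unfold nr
  rw [← Finset.sum_add_distrib]
  exact Finset.sum_le_sum fun i _ => abs_add_le _ _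

theorem nr_smul (t : ℝ) (x : F d) : nr (t • x) = |t| * nr x := by
  unfold nr
  rw [Finset.mul_sum]
  exact Finset.sum_congr rfl fun i _ => by rw [Pi.smul_apply, smul_eq_mul, abs_mul]

theorem nr_neg (x : F d) : nr (-x) = nr x := by
  unfold nr
  exact Finset.sum_congr rfl fun i _ => by rw [Pi.neg_apply, abs_neg]

theorem nr_zero : nr (0 : F d) = 0 := by simp [nr]

theorem nr_eq_zero {x : F d} (h : nr x = 0) : x = 0 := by
  funext i
  have h1 := Finset.single_le_sum (f := fun i => |x i|) (fun i _ => abs_nonneg (x i))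
    (Finset.mem_univ i)
  have h2 : |x i| ≤ 0 := h1.trans h.le
  simpa using abs_nonpos_iff.1 h2

theorem nr_continuous : Continuous (nr : F d → ℝ) := by
  unfold nr
  fun_prop

/-- norm like functions: subadditive, positively homogeneous, between `a nr` and `b nr` -/
structure Nr0 (a b : ℝ) (μ : F d → ℝ) : Prop where
  apos : 0 < a
  add : ∀ x y, μ (x + y) ≤ μ x + μ y
  smul : ∀ t : ℝ, 0 ≤ t → ∀ x, μ (t • x) = t * μ x
  lo : ∀ x, a * nr x ≤ μ x
  hi : ∀ x, μ x ≤ b * nr x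

theorem nr0_tc {a b : ℝ} {m : V d → ℝ} (h : SubM a b m) : Nr0 a b (tc m) :=
  ⟨h.apos, tc_add_le h, fun t ht x => tc_smul h t ht x, le_tc h, tc_le h⟩

/-- the transversal part `x - h x v` of `x` -/
def yp (v : F d) (h : F d →L[ℝ] ℝ) (x : F d) : F d := x - h x • v

theorem tr_eq (v : F d) (h : F d →L[ℝ] ℝ) (x : F d) : tr v h x = nr (yp v h x) := rfl

theorem tr_nonneg (v : F d) (h : F d →L[ℝ] ℝ) (x : F d) : 0 ≤ tr v h x := nr_nonneg _

theorem tr_add (v : F d) (h : F d →L[ℝ] ℝ) (x y : F d) :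
    tr v h (x + y) ≤ tr v h x + tr v h y := by
  unfold tr
  have e : x + y - h (x + y) • v = (x - h x • v) + (y - h y • v) := by
    rw [map_add, add_smul]
    abel
  rw [e]
  exact nr_add _ _

theorem tr_smul (v : F d) (h : F d →L[ℝ] ℝ) (t : ℝ) (x : F d) :
    tr v h (t • x) = |t| * tr v h x := by
  unfold tr
  have e : t • x - h (t • x) • v = t • (x - h x • v) := by
    rw [map_smul, smul_sub, smul_smul, smul_eq_mul]
  rw [e, nr_smul]

theorem tr_neg (v : F d) (h : F d →L[ℝ] ℝ) (x : F d) : tr v h (-x) = tr v h x := by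
  have h1 := tr_smul v h (-1) x
  rwa [neg_one_smul, abs_neg, abs_one, one_mul] at h1

theorem tr_zero (v : F d) (h : F d →L[ℝ] ℝ) : tr v h 0 = 0 := by
  unfold tr
  simp [nr_zero]

/-- `x` is at most `h x v` plus its transversal part -/
theorem nr_le_tr (v : F d) (h : F d →L[ℝ] ℝ) (x : F d) : nr x ≤ |h x| * nr v + tr v h x := by
  have e : x = h x • v + (x - h x • v) := by abel
  calc nr x = nr (h x • v + (x - h x • v)) := by rw [← e]
    _ ≤ nr (h x • v) + nr (x - h x • v) := nr_add _ _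
    _ = _ := by rw [nr_smul, tr]

theorem gt_apply (v : F d) (h : F d →L[ℝ] ℝ) (η : Fin d → ℝ) (x : F d) :
    gt v h η x = h x + ∑ i, η i * yp v h x i := by
  have e : gt v h η x = (1 - ∑ j, η j * v j) * h x + ∑ j, η j * x j := by
    simp [gt]
  have e2 : ∑ i, η i * yp v h x i = ∑ i, η i * x i - h x * ∑ i, η i * v i := by
    rw [Finset.mul_sum, ← Finset.sum_sub_distrib]
    refine Finset.sum_congr rfl fun i _ => ?_
    show η i * (x i - h x * v i) = _
    ring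
  rw [e, e2]
  ring

/-- the supremum of `g_η - n` over `h = 1` -/
noncomputable def DG (n : F d → ℝ) (v : F d) (h : F d →L[ℝ] ℝ) (η : Fin d → ℝ) : ℝ :=
  sSup {t | ∃ x, h x = 1 ∧ t = gt v h η x - n x}

theorem Dl_eq {Ω : Type*} [MeasurableSpace Ω] (P : MeasureTheory.Measure Ω)
    (X : Edge d → Ω → ℝ) (l : ℝ) (v : F d) (h : F d →L[ℝ] ℝ) (η : Fin d → ℝ) :
    Dl P X l v h η = DG (nl P X l) v h η := rfl

theorem dot_le (η : Fin d → ℝ) (y : F d) : |∑ i, η i * y i| ≤ ‖η‖ * nr y := by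
  unfold nr
  rw [Finset.mul_sum]
  refine (Finset.abs_sum_le_sum_abs _ _).trans (Finset.sum_le_sum fun i _ => ?_)
  rw [abs_mul]
  exact mul_le_mul_of_nonneg_right (norm_le_pi_norm η i) (abs_nonneg _)

/-- `|g_η x - h x| ≤ |η|_∞ |x - h x v|` -/
theorem gt_sub_le (v : F d) (h : F d →L[ℝ] ℝ) (η : Fin d → ℝ) (x : F d) :
    |gt v h η x - h x| ≤ ‖η‖ * tr v h x := by
  rw [gt_apply, add_sub_cancel_left]
  exact dot_le η _

variable {a b s δ : ℝ} {u n : F d → ℝ} {h : F d →L[ℝ] ℝ} {v : F d}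

theorem yp_v (hv : h v = 1) : yp v h v = 0 := by
  rw [yp, hv, one_smul, sub_self]

theorem tr_v (hv : h v = 1) : tr v h v = 0 := by
  rw [tr_eq, yp_v hv, nr_zero]

theorem h_yp (hv : h v = 1) (x : F d) : h (yp v h x) = 0 := by
  rw [yp, map_sub, map_smul, hv, smul_eq_mul, mul_one, sub_self]

theorem gt_v (hv : h v = 1) (η : Fin d → ℝ) : gt v h η v = 1 := by
  rw [gt_apply, yp_v hv, hv]
  simp

/-- the bound from above on the slice `h = 1` -/
theorem gt_sub_le_slice (hV : Vtx u v h s) (hδ : 0 ≤ δ) (hn : ∀ x, u x - δ * nr x ≤ n x)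
    {η : Fin d → ℝ} (hη : ‖η‖ + δ ≤ s) {x : F d} (hx : h x = 1) :
    gt v h η x - n x ≤ δ * nr v := by
  have h1 := hV.gap x
  have h2 := hn x
  have h3 := (le_abs_self _).trans (gt_sub_le v h η x)
  have h4 := nr_le_tr v h x
  rw [hx, abs_one, one_mul] at h4
  rw [hx] at h1 h3
  have h5 := mul_le_mul_of_nonneg_left h4 hδ
  have h6 := mul_le_mul_of_nonneg_right hη (tr_nonneg v h x)
  nlinarith

theorem DG_bdd (hV : Vtx u v h s) (hδ : 0 ≤ δ) (hn : ∀ x, u x - δ * nr x ≤ n x)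
    {η : Fin d → ℝ} (hη : ‖η‖ + δ ≤ s) :
    BddAbove {t | ∃ x, h x = 1 ∧ t = gt v h η x - n x} := by
  refine ⟨δ * nr v, ?_⟩
  rintro _ ⟨x, hx, rfl⟩
  exact gt_sub_le_slice hV hδ hn hη hx

theorem DG_nonempty (hv : h v = 1) (η : Fin d → ℝ) :
    {t | ∃ x, h x = 1 ∧ t = gt v h η x - n x}.Nonempty := ⟨_, v, hv, rfl⟩

/-- `DG ≤ δ |v|` -/
theorem DG_le (hV : Vtx u v h s) (hδ : 0 ≤ δ) (hn : ∀ x, u x - δ * nr x ≤ n x)
    {η : Fin d → ℝ} (hη : ‖η‖ + δ ≤ s) : DG n v h η ≤ δ * nr v := by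
  refine csSup_le (DG_nonempty hV.hv η) ?_
  rintro _ ⟨x, hx, rfl⟩
  exact gt_sub_le_slice hV hδ hn hη hx

theorem le_DG (hV : Vtx u v h s) (hδ : 0 ≤ δ) (hn : ∀ x, u x - δ * nr x ≤ n x)
    {η : Fin d → ℝ} (hη : ‖η‖ + δ ≤ s) {x : F d} (hx : h x = 1) :
    gt v h η x - n x ≤ DG n v h η :=
  le_csSup (DG_bdd hV hδ hn hη) ⟨x, hx, rfl⟩

/-- `0 ≤ DG` -/
theorem DG_nonneg (hV : Vtx u v h s) (hδ : 0 ≤ δ) (hn : ∀ x, u x - δ * nr x ≤ n x)
    (hnu : ∀ x, n x ≤ u x) {η : Fin d → ℝ} (hη : ‖η‖ + δ ≤ s) : 0 ≤ DG n v h η := by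
  have h1 := le_DG hV hδ hn hη hV.hv
  rw [gt_v hV.hv] at h1
  have h2 := hnu v
  rw [hV.one] at h2
  linarith

/-- `DG` is antitone in `n` -/
theorem DG_anti {n' : F d → ℝ} (hV : Vtx u v h s) (hδ : 0 ≤ δ)
    (hn : ∀ x, u x - δ * nr x ≤ n x) (hnn : ∀ x, n x ≤ n' x)
    {η : Fin d → ℝ} (hη : ‖η‖ + δ ≤ s) : DG n' v h η ≤ DG n v h η := by
  refine csSup_le (DG_nonempty hV.hv η) ?_
  rintro _ ⟨x, hx, rfl⟩
  have h1 := le_DG hV hδ hn hη hx
  have h2 := hnn x
  linarith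

theorem gt_comb (η η' : Fin d → ℝ) (p q : ℝ) (hpq : p + q = 1) (x : F d) :
    gt v h (p • η + q • η') x = p * gt v h η x + q * gt v h η' x := by
  simp only [gt_apply]
  have e : ∑ i, (p • η + q • η') i * yp v h x i =
      p * ∑ i, η i * yp v h x i + q * ∑ i, η' i * yp v h x i := by
    rw [Finset.mul_sum, Finset.mul_sum, ← Finset.sum_add_distrib]
    exact Finset.sum_congr rfl fun i _ => by
      simp only [Pi.add_apply, Pi.smul_apply, smul_eq_mul]
      ring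
  rw [e]
  linear_combination (-(h x)) * hpq

/-- `DG` is convex in the tilt -/
theorem DG_convexOn (hV : Vtx u v h s) (hδ : 0 ≤ δ) (hn : ∀ x, u x - δ * nr x ≤ n x) {r : ℝ}
    (hr : r + δ ≤ s) : ConvexOn ℝ {η : Fin d → ℝ | ‖η‖ ≤ r} (DG n v h) := by
  refine ⟨?_, fun η hη η' hη' p q hp hq hpq => ?_⟩
  · have e : {η : Fin d → ℝ | ‖η‖ ≤ r} = Metric.closedBall 0 r := by
      ext η
      simp
    rw [e]
    exact convex_closedBall 0 r
  · refine csSup_le (DG_nonempty hV.hv _) ?_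
    rintro _ ⟨x, hx, rfl⟩
    have h1 := le_DG hV hδ hn (η := η) (by have : ‖η‖ ≤ r := hη; linarith) hx
    have h2 := le_DG hV hδ hn (η := η') (by have : ‖η'‖ ≤ r := hη'; linarith) hx
    rw [gt_comb η η' p q hpq]
    simp only [smul_eq_mul]
    have h3 := mul_le_mul_of_nonneg_left h1 hp
    have h4 := mul_le_mul_of_nonneg_left h2 hq
    have e : n x = p * n x + q * n x := by rw [← add_mul, hpq, one_mul]
    linarith

/-- on all of the space: `g_η x - n x ≤ (h x)_+ DG` -/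
theorem gt_sub_le_DG (hN : Nr0 a b n) (hV : Vtx u v h s) (hδ : 0 ≤ δ)
    (hn : ∀ x, u x - δ * nr x ≤ n x) (hnu : ∀ x, n x ≤ u x)
    {η : Fin d → ℝ} (hη : ‖η‖ + δ ≤ s) (x : F d) :
    gt v h η x - n x ≤ max (h x) 0 * DG n v h η := by
  rcases lt_or_ge 0 (h x) with hx | hx
  · rw [max_eq_left hx.le]
    have h1 : h ((h x)⁻¹ • x) = 1 := by
      rw [map_smul, smul_eq_mul, inv_mul_cancel₀ hx.ne']
    have h2 := le_DG hV hδ hn hη h1
    rw [map_smul, hN.smul _ (inv_nonneg.2 hx.le), smul_eq_mul, ← mul_sub] at h2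
    have h3 := mul_le_mul_of_nonneg_left h2 hx.le
    rwa [← mul_assoc, mul_inv_cancel₀ hx.ne', one_mul] at h3
  · rw [max_eq_right hx, zero_mul]
    have e : yp v h x = x + (-h x) • v := by
      rw [yp, neg_smul, sub_eq_add_neg]
    have h1 := hN.add x ((-h x) • v)
    rw [← e, hN.smul _ (neg_nonneg.2 hx)] at h1
    have h2 := hnu v
    rw [hV.one] at h2
    have h3 := mul_le_mul_of_nonneg_left h2 (neg_nonneg.2 hx)
    have h4 := (le_abs_self _).trans (dot_le η (yp v h x))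
    have h5 := mul_le_mul_of_nonneg_right hη (nr_nonneg (yp v h x))
    have h6 := hV.gap (yp v h x)
    have h7 : tr v h (yp v h x) = nr (yp v h x) := by
      unfold tr
      rw [h_yp hV.hv, zero_smul, sub_zero]
    have h8 := hn (yp v h x)
    rw [h7, h_yp hV.hv, zero_add] at h6
    rw [gt_apply]
    linarith

/-- the sign of a real number as a real number of absolute value at most `1` -/
noncomputable def sg (t : ℝ) : ℝ := if 0 ≤ t then 1 else -1

theorem sg_mul (t : ℝ) : sg t * t = |t| := by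
  unfold sg
  split_ifs with h
  · rw [one_mul, abs_of_nonneg h]
  · rw [abs_of_neg (not_le.1 h)]
    ring

theorem sg_norm (t : ℝ) : ‖sg t‖ ≤ 1 := by
  unfold sg
  split_ifs <;> simp

/-- (E2): a whole ball of tilts is available at a vertex -/
theorem E2 (hN : Nr0 a b n) (hV : Vtx u v h s) (hδ : 0 ≤ δ)
    (hn : ∀ x, u x - δ * nr x ≤ n x) (hnu : ∀ x, n x ≤ u x)
    {η : Fin d → ℝ} {τ D : ℝ} (hτ : 0 ≤ τ) (hη : ‖η‖ + τ + δ ≤ s)
    (hD : ∀ η' : Fin d → ℝ, ‖η' - η‖ ≤ τ → DG n v h η' ≤ D) (x : F d) :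
    gt v h η x - n x ≤ max (h x) 0 * D - τ * tr v h x := by
  obtain ⟨w, hw⟩ : ∃ w : F d, w = fun i => τ * sg (yp v h x i) := ⟨_, rfl⟩
  have hwn : ‖w‖ ≤ τ := by
    rw [pi_norm_le_iff_of_nonneg hτ]
    intro i
    rw [hw, norm_mul, Real.norm_of_nonneg hτ]
    exact mul_le_of_le_one_right hτ (sg_norm _)
  have h0 : ‖η + w‖ ≤ ‖η‖ + τ := (norm_add_le _ _).trans (by linarith)
  have h1 := gt_sub_le_DG hN hV hδ hn hnu (η := η + w) (by linarith) x
  have h2 := hD (η + w) (by rwa [add_sub_cancel_left])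
  have h3 := mul_le_mul_of_nonneg_left h2 (le_max_right (h x) 0)
  have e : gt v h (η + w) x = gt v h η x + τ * tr v h x := by
    rw [gt_apply, gt_apply]
    have e1 : ∑ i, (η + w) i * yp v h x i =
        ∑ i, η i * yp v h x i + ∑ i, w i * yp v h x i := by
      rw [← Finset.sum_add_distrib]
      exact Finset.sum_congr rfl fun i _ => by rw [Pi.add_apply, add_mul]
    have e2 : ∑ i, w i * yp v h x i = τ * tr v h x := by
      rw [tr_eq]
      unfold nr
      rw [Finset.mul_sum]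
      refine Finset.sum_congr rfl fun i _ => ?_
      rw [hw]
      show τ * sg (yp v h x i) * yp v h x i = τ * |yp v h x i|
      rw [mul_assoc, sg_mul]
    rw [e1, e2]
    ring
  linarith

end Pool.Agent.Helper19.PG
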